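import Pool.Agent.N751.VD.Stm
import Pool.Agent.N265.CV.HtcB

/-!
# Project VD: the inequality of Liouville for the proximity function
-/

set_option autoImplicit false

namespace Pool.Agent.N234.VD

open NumberField Module Height
open Pool.Agent.N751.VD

section lower

variable {M : Type} [Field M] [NumberField M] {ι : Type} [Finite ι]

/-- a sum of local contributions is at most the height -/
theorem le_height (u : ι → M) (j₀ : ι) (hj : u j₀ = 1) (T₀ : Finset (InfinitePlace M))
    (T : Finset (FinitePlace M)) :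
    ∑ w ∈ T₀, (w.mult : ℝ) * Real.log (⨆ j, w (u j)) + ∑ w ∈ T, Real.log (⨆ j, w (u j)) ≤
      logHeight u := by
  classical
  have hu : u ≠ 0 := by
    intro h
    rw [h] at hj
    exact zero_ne_one hj
  have h1 : ∀ w : InfinitePlace M, 1 ≤ ⨆ j, w (u j) := fun w =>
    Finite.le_ciSup_of_le j₀ (by rw [hj, map_one])
  have h2 : ∀ w : FinitePlace M, 1 ≤ ⨆ j, w (u j) := fun w =>
    Finite.le_ciSup_of_le j₀ (by rw [hj, map_one])
  have hfin : (Function.mulSupport fun w : FinitePlace M => ⨆ j, w (u j)).Finite := by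
    have h : (fun v : AdmissibleAbsValues.nonarchAbsVal (K := M) =>
      ⨆ i, v.val (u i)).HasFiniteMulSupport := by fun_prop
    exact h
  rw [logHeight_eq_log_mulHeight, NumberField.mulHeight_eq hu]
  have hp1 : 0 < ∏ v : InfinitePlace M, (⨆ i, v (u i)) ^ v.mult :=
    Finset.prod_pos fun v _ => pow_pos (one_pos.trans_le (h1 v)) _
  have hfp : ∏ᶠ v : FinitePlace M, ⨆ i, v (u i) =
      ∏ v ∈ hfin.toFinset ∪ T, ⨆ i, v (u i) := by
    refine finprod_eq_prod_of_mulSupport_subset _ ?_
    intro v hv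
    simp only [Finset.coe_union, Set.mem_union, Finset.mem_coe, Set.Finite.mem_toFinset]
    exact Or.inl hv
  have hp2 : 0 < ∏ v ∈ hfin.toFinset ∪ T, ⨆ i, v (u i) :=
    Finset.prod_pos fun v _ => one_pos.trans_le (h2 v)
  rw [hfp, Real.log_mul hp1.ne' hp2.ne', Real.log_prod (fun v _ => (pow_pos
    (one_pos.trans_le (h1 v)) _).ne'), Real.log_prod (fun v _ => (one_pos.trans_le (h2 v)).ne')]
  refine add_le_add ?_ ?_
  · have h3 : ∀ v : InfinitePlace M, Real.log ((⨆ i, v (u i)) ^ v.mult) =
        (v.mult : ℝ) * Real.log (⨆ i, v (u i)) := fun v => Real.log_pow _ _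
    simp only [h3]
    refine Finset.sum_le_sum_of_subset_of_nonneg (Finset.subset_univ _) fun v _ _ => ?_
    exact mul_nonneg (Nat.cast_nonneg _) (Real.log_nonneg (h1 v))
  · exact Finset.sum_le_sum_of_subset_of_nonneg Finset.subset_union_right
      fun v _ _ => Real.log_nonneg (h2 v)

end lower

section main

variable {K : Type} [Field K] [NumberField K] {N e : ℕ}

/-- the vector of the products of `e` coordinates -/
def pw {M : Type} [Field M] (e : ℕ) (z : Fin N → M) (I : Fin e → Fin (N + 1)) : M :=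
  ∏ k, (Fin.cons 1 z : Fin (N + 1) → M) (I k)

theorem zt_ne {M : Type} [Field M] (z : Fin N → M) : (Fin.cons 1 z : Fin (N + 1) → M) ≠ 0 := by
  intro h
  have := congrFun h 0
  simp at this

theorem exists_max {M : Type} [Field M] (w : AbsoluteValue M ℝ) (z : Fin N → M) :
    ∃ i₀, (⨆ i, w ((Fin.cons 1 z : Fin (N + 1) → M) i)) = w ((Fin.cons 1 z : Fin (N + 1) → M) i₀) ∧
      1 ≤ w ((Fin.cons 1 z : Fin (N + 1) → M) i₀) ∧
      ∀ i, w ((Fin.cons 1 z : Fin (N + 1) → M) i) ≤ w ((Fin.cons 1 z : Fin (N + 1) → M) i₀) := by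
  obtain ⟨i₀, hi₀⟩ := Finite.exists_max fun i => w ((Fin.cons 1 z : Fin (N + 1) → M) i)
  refine ⟨i₀, le_antisymm (ciSup_le hi₀) (Finite.le_ciSup_of_le i₀ le_rfl), ?_, hi₀⟩
  refine le_trans ?_ (hi₀ 0)
  rw [Fin.cons_zero, map_one]

theorem w_pw_const {M : Type} [Field M] (w : AbsoluteValue M ℝ) (z : Fin N → M)
    (i₀ : Fin (N + 1)) :
    w (pw e z fun _ => i₀) = w ((Fin.cons 1 z : Fin (N + 1) → M) i₀) ^ e := by
  unfold pw
  rw [map_prod, Finset.prod_const, Finset.card_univ, Fintype.card_fin]

/-- the local comparison -/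
theorem loc_le {M : Type} [Field M] (w : AbsoluteValue M ℝ) (z : Fin N → M) (q : M) (hq : q ≠ 0) :
    0 < (⨆ i, w ((Fin.cons 1 z : Fin (N + 1) → M) i)) ^ e / w q ∧
    (⨆ i, w ((Fin.cons 1 z : Fin (N + 1) → M) i)) ^ e / w q ≤
      ⨆ j : Option (Fin e → Fin (N + 1)), w (Option.elim j 1 fun I => q⁻¹ * pw e z I) := by
  obtain ⟨i₀, h1, h2, -⟩ := exists_max w z
  have hwq : 0 < w q := w.pos hq
  rw [h1]
  refine ⟨div_pos (pow_pos (one_pos.trans_le h2) _) hwq, ?_⟩
  refine Finite.le_ciSup_of_le (some fun _ => i₀) ?_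
  simp only [Option.elim]
  rw [map_mul, w_pw_const, map_inv₀, div_eq_inv_mul]

/-- the value of a monomial -/
theorem mono_le {M : Type} [Field M] (w : AbsoluteValue M ℝ) (z : Fin N → M) (d : Fin N →₀ ℕ)
    (hd : ∑ i, d i ≤ e) (i₀ : Fin (N + 1))
    (h1 : 1 ≤ w ((Fin.cons 1 z : Fin (N + 1) → M) i₀))
    (h2 : ∀ i, w ((Fin.cons 1 z : Fin (N + 1) → M) i) ≤
      w ((Fin.cons 1 z : Fin (N + 1) → M) i₀)) :
    w (∏ i, z i ^ d i) ≤ w ((Fin.cons 1 z : Fin (N + 1) → M) i₀) ^ e := by
  rw [map_prod]
  calc ∏ i, w (z i ^ d i) ≤ ∏ i, w ((Fin.cons 1 z : Fin (N + 1) → M) i₀) ^ d i := by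
        refine Finset.prod_le_prod (fun i _ => w.nonneg _) fun i _ => ?_
        rw [map_pow]
        refine pow_le_pow_left₀ (w.nonneg _) ?_ _
        have := h2 i.succ
        rwa [Fin.cons_succ] at this
    _ = w ((Fin.cons 1 z : Fin (N + 1) → M) i₀) ^ ∑ i, d i :=
        Finset.prod_pow_eq_pow_sum _ _ _
    _ ≤ _ := pow_le_pow_right₀ h1 hd

/-- **VD/LV** the inequality of Liouville -/
theorem t : StmLv := by
  classical
  intro K _ _ N e Q hQ
  set a : Option Q.support → K := fun o => o.elim 1 fun m => Q.coeff m with ha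
  set c : ℕ := Q.support.card + 1 with hc
  refine ⟨Real.log (c : ℝ) + logHeight a, ?_⟩
  intro M _ _ _ z hq T₀ T
  have : FiniteDimensional K M := Module.Finite.of_restrictScalars_finite ℚ K M
  set q : M := MvPolynomial.aeval z Q with hqdef
  set u : Option (Fin e → Fin (N + 1)) → M := fun j => Option.elim j 1 fun I => q⁻¹ * pw e z I
    with hu
  set u' : Option (Fin e → Fin (N + 1)) → M := fun j => Option.elim j q fun I => pw e z I with hu'
  set aM : Option Q.support → M := fun o => algebraMap K M (a o) with haM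
  set v : Option Q.support × (Fin e → Fin (N + 1)) → M := fun p => aM p.1 * pw e z p.2 with hv
  -- the proximity function is at most the height of `u`
  have h1 : prox T₀ T e z q ≤ logHeight u := by
    refine le_trans ?_ (le_height u none rfl T₀ T)
    unfold prox
    refine add_le_add (Finset.sum_le_sum fun w _ => ?_) (Finset.sum_le_sum fun w _ => ?_)
    · refine mul_le_mul_of_nonneg_left ?_ (Nat.cast_nonneg _)
      obtain ⟨h2, h3⟩ := loc_le (e := e) w.val z q hq
      exact Real.log_le_log h2 h3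
    · obtain ⟨h2, h3⟩ := loc_le (e := e) w.val z q hq
      exact Real.log_le_log h2 h3
  have h2 : logHeight u = logHeight u' := by
    have h3 : u' = q • u := by
      funext j
      rcases j with _ | I
      · simp [hu, hu']
      · simp only [hu, hu', Option.elim, Pi.smul_apply, smul_eq_mul]
        rw [mul_inv_cancel_left₀ hq]
    rw [h3, logHeight_smul_eq_logHeight _ hq]
  have hu0 : u' ≠ 0 := by
    intro h
    exact hq (congrFun h none)
  have hv0 : v ≠ 0 := by
    intro h
    have h3 := congrFun h (none, fun _ => 0)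
    simp [hv, haM, ha, pw] at h3
  have hval : ∀ w : AbsoluteValue M ℝ, ∀ p, w (v p) ≤ ⨆ p, w (v p) := fun w p =>
    Finite.le_ciSup_of_le p le_rfl
  have hterm : ∀ w : AbsoluteValue M ℝ, ∀ m ∈ Q.support,
      w (algebraMap K M (Q.coeff m) * ∏ i, z i ^ m i) ≤ ⨆ p, w (v p) := by
    intro w m hm
    obtain ⟨i₀, h3, h4, h5⟩ := exists_max w z
    refine le_trans ?_ (hval w (some ⟨m, hm⟩, fun _ => i₀))
    simp only [hv, haM, ha, Option.elim]
    rw [map_mul, map_mul, w_pw_const]
    refine mul_le_mul_of_nonneg_left (mono_le w z m ?_ i₀ h4 h5) (w.nonneg _)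
    refine le_trans ?_ hQ
    refine le_trans (le_of_eq ?_) (MvPolynomial.le_totalDegree hm)
    rw [Finsupp.sum_fintype _ _ fun _ => rfl]
  have hqs : q = ∑ m ∈ Q.support, algebraMap K M (Q.coeff m) * ∏ i, z i ^ m i := by
    rw [hqdef, MvPolynomial.aeval_def, MvPolynomial.eval₂_eq']
  have hsup0 : ∀ w : AbsoluteValue M ℝ, 0 ≤ ⨆ p, w (v p) := fun w =>
    Real.iSup_nonneg fun p => w.nonneg _
  have hI : ∀ w : AbsoluteValue M ℝ, ∀ I, w (pw e z I) ≤ ⨆ p, w (v p) := by
    intro w I
    refine le_trans (le_of_eq ?_) (hval w (none, I))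
    simp [hv, haM, ha]
  have hc1 : (1 : ℝ) ≤ c := by
    rw [hc]
    push_cast
    linarith [(Nat.cast_nonneg Q.support.card : (0 : ℝ) ≤ Q.support.card)]
  have h3 : logHeight u' ≤ totalWeight M * Real.log (c : ℝ) + logHeight v := by
    refine Pool.Agent.N265.CV.logHeight_le_of hu0 hv0 c (by rw [hc]; omega) ?_ ?_
    · intro w
      refine ciSup_le fun j => ?_
      rcases j with _ | I
      · simp only [hu', Option.elim]
        rw [hqs]
        calc w (∑ m ∈ Q.support, algebraMap K M (Q.coeff m) * ∏ i, z i ^ m i)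
            ≤ ∑ m ∈ Q.support, w (algebraMap K M (Q.coeff m) * ∏ i, z i ^ m i) :=
              w.sum_le _ _
          _ ≤ ∑ m ∈ Q.support, ⨆ p, w (v p) := Finset.sum_le_sum fun m hm => hterm w m hm
          _ = Q.support.card * ⨆ p, w (v p) := by rw [Finset.sum_const, nsmul_eq_mul]
          _ ≤ c * ⨆ p, w (v p) := by
            refine mul_le_mul_of_nonneg_right ?_ (hsup0 w)
            rw [hc]
            push_cast
            linarith
      · simp only [hu', Option.elim]
        refine (hI w I).trans ?_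
        exact le_mul_of_one_le_left (hsup0 w) hc1
    · intro w hw
      refine ciSup_le fun j => ?_
      rcases j with _ | I
      · simp only [hu', Option.elim]
        rw [hqs]
        by_cases hne : Q.support.Nonempty
        · obtain ⟨m, hm, hle⟩ := IsNonarchimedean.finset_image_add_of_nonempty hw
            (fun m => algebraMap K M (Q.coeff m) * ∏ i, z i ^ m i) hne
          exact hle.trans (hterm w m hm)
        · exfalso
          apply hq
          rw [hqs]
          refine Finset.sum_eq_zero fun m hm => ?_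
          exact absurd ⟨m, hm⟩ hne
      · exact hI w I
  have h4 : logHeight v = logHeight aM + e * logHeight (Fin.cons 1 z : Fin (N + 1) → M) := by
    have haM0 : aM ≠ 0 := by
      intro h
      have h5 := congrFun h none
      simp [haM, ha] at h5
    have hpw : logHeight (pw e z) = e * logHeight (Fin.cons 1 z : Fin (N + 1) → M) := by
      have h5 := logHeight_fun_prod_eq (x := fun (_ : Fin e) =>
        (Fin.cons 1 z : Fin (N + 1) → M)) (fun _ => zt_ne z)
      rw [Finset.sum_const, Finset.card_univ, Fintype.card_fin, nsmul_eq_mul] at h5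
      exact h5
    have hpw0 : pw e z ≠ 0 := by
      intro h
      have h5 := congrFun h fun _ => 0
      simp [pw] at h5
    rw [← hpw]
    exact logHeight_fun_mul_eq haM0 hpw0
  have h5 : logHeight aM ≤ finrank ℚ M * logHeight a := by
    have h6 : logHeight aM = finrank K M * logHeight a := by
      rw [← Pool.Agent.Helper259.HtExt.logHeight_ext]
    rw [h6]
    refine mul_le_mul_of_nonneg_right ?_ (logHeight_nonneg _)
    have h5 : finrank ℚ K * finrank K M = finrank ℚ M := finrank_mul_finrank ℚ K M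
    have h6 : 0 < finrank ℚ K := finrank_pos
    exact_mod_cast (by nlinarith : finrank K M ≤ finrank ℚ M)
  rw [NumberField.totalWeight_eq_finrank] at h3
  rw [h2] at h1
  rw [h4] at h3
  have h6 : (Real.log (c : ℝ) + logHeight a) * finrank ℚ M =
      finrank ℚ M * Real.log (c : ℝ) + finrank ℚ M * logHeight a := by ring
  rw [h6]
  linarith

end main

end Pool.Agent.N234.VD
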